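import Pool.Agent.R800.AN.Main

/-! Chains of concordances ending in a slice knot. -/

namespace Pool.Agent.R800.AN

set_option linter.unusedSimpArgs false

open Pool.Agent.Y468.SR
open Pool.Agent.Y874.TP hiding S_REID S_REN S_THREE S_OUT S_CUT S_JUNC CStep CReid CM InvM InvC Inv3
open Pool.Agent.Y874.TP2
open Pool.Agent.Y874.TP2.T3
open Pool.Agent.R800.TP

theorem even_ribbon_ff {hd : Bool} {Z : ℕ → Prop} {D : Code} {T : List (ℕ × ℕ × ℕ)}
    (h : TMovie hd Z D T) (hZ : ∀ p ∈ passes D, ¬Z (colour p.crossing))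
    (hn : (D.map Prod.snd).Nodup) (hc : ∀ κ, ((passes D).map ends).count κ ≤ 2)
    (he : ∀ p ∈ passes D, ∀ q ∈ passes D, ends p ≠ ends q →
      Even ((T.flatMap crs).count s(ends p, ends q))) : Movie false false D [] := by
  obtain ⟨Ts, hI, hs⟩ := tmovie_inv' RD.reid RN.ren TH.three h hZ
  obtain ⟨m, hm⟩ := hI.inv
  have hD := tmovie_classical h
  rw [← tprs_all hs] at he
  exact ribbon_of_inv _ D le_rfl hD hn (inv_of_null (mt_matching hn hI hD.1 hm hc)
    (null_mt hn hI hD.1 hm hc he))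

theorem ribbon_of_chain {R : List Pass → List Pass → Prop}
    (hR : ∀ k k', R k k' → ∃ j, Movie false false [(k, 0)] [(j, 0)] ∧
      Movie false false [(k', 0)] [(j, 0)]) {k k' : List Pass} (h : Relation.EqvGen R k k')
    (hk : Classical [(k', 0)]) (hk' : Movie false false [(k', 0)] []) :
    Movie false false [(k, 0)] [] := by
  obtain ⟨h1, h2⟩ := movie_of_eqvGen hR h
  exact ribbon_of_movie (h1.trans (movie_births hk')) (classical_of_movie h2 hk) (by simp)

theorem ribbon_of_tmovie {hd : Bool} {k : List Pass} (hk : Classical [(k, 0)]) {f : ℕ → ℕ}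
    (hf : Function.Injective f) {Z : ℕ → Prop} {T : List (ℕ × ℕ × ℕ)}
    (hZ : ∀ p ∈ k.map (ren f), ¬Z (colour p.crossing))
    (h₃ : TMovie hd Z (renamed f [(k, 0)]) T)
    (h₄ : ∀ κ : ℕ × Bool, ((k.map (ren f)).map ends).count κ ≤ 2)
    (h₅ : ∀ p ∈ k.map (ren f), ∀ q ∈ k.map (ren f), ends p ≠ ends q →
      Even ((T.flatMap crs).count s(ends p, ends q))) : Movie false false [(k, 0)] [] := by
  have c1 := classical_ren hf hk
  have s1 : Step false false [(k, 0)] [(k.map (ren f), 0)] :=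
    Step.rename f [(k, 0)] fun p _ q _ h => hf h
  have e : passes [(k.map (ren f), 0)] = k.map (ren f) := by simp
  exact Movie.head hk c1 s1 (even_ribbon_ff h₃ (by rw [e]; exact hZ) (by simp [renamed])
    (by rw [e]; exact h₄) (by rw [e]; exact h₅))

end Pool.Agent.R800.AN
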