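import Pool.Agent.R800.TP.EvenC
import Pool.Agent.Y874.TP4.Conc

/-!
# Movies of concordances recording the double curves through the triple points
-/

namespace Pool.Agent.R800.AN

open Pool.Agent.Y468.SR
open Pool.Agent.Y874.TP (colour TriAt)
open Pool.Agent.Y874.TP2 (CStep)
open Pool.Agent.R800.TP (ends crs)

/-- `CMovie Z E D T`: there is a movie of classical links from `D` to `E`, births of components being
allowed, whose surfaces are planar. Triple points of the projection (moves of type III) are of two
kinds: either at least two of the three double curves through the triple point have colours in `Z`,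
or the three double curves have colours outside `Z`. `T` is the list of the triples of colours of the
double curves at the triple points of the second kind: the colour of the crossing of the top and the
middle strand, of the top and the bottom strand, and of the middle and the bottom strand. There are
no other conditions on triple points. The colours (names of the double curves) are kept by all steps;
branch points (moves of type I) are allowed on double curves of even colours only. -/
inductive CMovie (Z : ℕ → Prop) (E : Code) : Code → List (ℕ × ℕ × ℕ) → Prop
  | refl (h : Classical E) : CMovie Z E E []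
  | step {D D' : Code} {T : List (ℕ × ℕ × ℕ)} (h : Classical D) (hs : CStep D D')
      (hm : CMovie Z E D' T) : CMovie Z E D T
  | three {D D' : Code} {T : List (ℕ × ℕ × ℕ)} (h : Classical D) (A B C F : List (Pass ⊕ ℕ))
      (X Y W t m b : Pass × Pass) (x y z : ℕ) (hT : TriAt x y z t m b)
      (hP : List.Perm [X, Y, W] [t, m, b])
      (hD : enc D = A ++ two X.1 X.2 ++ B ++ two Y.1 Y.2 ++ C ++ two W.1 W.2 ++ F)
      (hD' : enc D' = A ++ two X.2 X.1 ++ B ++ two Y.2 Y.1 ++ C ++ two W.2 W.1 ++ F)
      (hZ : ¬Z (colour x) ∧ ¬Z (colour y) ∧ ¬Z (colour z))
      (hm : CMovie Z E D' T) : CMovie Z E D ((colour x, colour y, colour z) :: T)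
  | inner {D D' : Code} {T : List (ℕ × ℕ × ℕ)} (h : Classical D) (A B C F : List (Pass ⊕ ℕ))
      (X Y W t m b : Pass × Pass) (x y z : ℕ) (hT : TriAt x y z t m b)
      (hP : List.Perm [X, Y, W] [t, m, b])
      (hD : enc D = A ++ two X.1 X.2 ++ B ++ two Y.1 Y.2 ++ C ++ two W.1 W.2 ++ F)
      (hD' : enc D' = A ++ two X.2 X.1 ++ B ++ two Y.2 Y.1 ++ C ++ two W.2 W.1 ++ F)
      (hZ : Z (colour x) ∧ Z (colour y) ∨ Z (colour x) ∧ Z (colour z) ∨ Z (colour y) ∧ Z (colour z))
      (hm : CMovie Z E D' T) : CMovie Z E D T

/-- The classical knots with Gauss codes `k` and `k'` are joined by a concordance whose double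
curves meeting the knots cross evenly: the crossings of `k` and `k'` are renamed (by `f` and `g`) in
order to get names telling the double curves (colours), `Z` is a set of double curves not meeting
the knots, such that at each triple point at least two or none of the three double curves belong to
`Z`; every curve of the preimage has at most two ends on the two knots, and any two different curves
of the preimage with ends on the knots cross one another an even number of times at the triple points
of the second kind. -/
def EvenConc (k k' : List Pass) : Prop :=
  Classical [(k, 0)] ∧ Classical [(k', 0)] ∧ ∃ (f g : ℕ → ℕ) (Z : ℕ → Prop)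
    (T : List (ℕ × ℕ × ℕ)), Function.Injective f ∧ Function.Injective g ∧
    (∀ p ∈ k.map (ren f) ++ k'.map (ren g), ¬Z (colour p.crossing)) ∧
    CMovie Z (renamed g [(k', 0)]) (renamed f [(k, 0)]) T ∧
    (∀ κ, ((k.map (ren f) ++ k'.map (ren g)).map ends).count κ ≤ 2) ∧
    ∀ p ∈ k.map (ren f) ++ k'.map (ren g), ∀ q ∈ k.map (ren f) ++ k'.map (ren g),
      ends p ≠ ends q → Even ((T.flatMap crs).count s(ends p, ends q))

end Pool.Agent.R800.AN
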