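import Pool.Agent.R800.AN.Lift

/-! Curves crossing one another evenly in an annulus. -/

namespace Pool.Agent.R800.AN

set_option linter.unusedSimpArgs false

open Pool.Agent.Y468.SR
open Pool.Agent.Y874.TP hiding S_REID S_REN S_THREE S_OUT S_CUT S_JUNC CStep CReid CM InvM InvC Inv3
open Pool.Agent.Y874.TP2
open Pool.Agent.Y874.TP2.T3
open Pool.Agent.R800.TP

/-! ### Words -/

theorem cf_of_om {G : Type} [Group G] {v : Pass → G} {W : List Pass} (hnd : W.Nodup)
    (h2 : ∀ κ, (W.map kap).count κ ≤ 2) (hs : ∀ κ, (W.map (fk κ)).sum = 0)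
    (ho : ∀ κ κ', κ ≠ κ' → (W.map kap).count κ ≠ 0 → (W.map kap).count κ' ≠ 0 →
      (4 : ℤ) ∣ om (fk κ) (fk κ') W)
    (hv : ∀ x ∈ W, ∀ x' ∈ W, x' ≠ x → kap x' = kap x → v x' = (v x)⁻¹) : Cf v W := by
  refine ⟨fun κ => ?_, fun A x M x' B hW hx => ?_, fun A x M x' B hW hx κ hκ h1 => ?_⟩
  · by_cases h4 : (W.map kap).count κ = 1
    · rcases sum_one h4 with h5 | h5 <;> rw [hs κ] at h5 <;> simp at h5
    · have := h2 κ; omega
  · refine hv x (by rw [hW]; simp) x' (by rw [hW]; simp) ?_ hx
    rintro rfl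
    rw [hW, List.nodup_append, List.nodup_cons] at hnd
    exact hnd.2.1.1 (by simp)
  · have c3 : (W.map kap).count (kap x) = 2 + (A.map kap).count (kap x) +
        (M.map kap).count (kap x) + (B.map kap).count (kap x) := by
      rw [hW]
      simp only [List.map_append, List.map_cons, List.count_append, List.count_cons_self, hx]
      omega
    have c2 := h2 (kap x)
    have hA := of_count_zero (W := A) (κ := kap x) (by omega)
    have hM := of_count_zero (W := M) (κ := kap x) (by omega)
    have hB := of_count_zero (W := B) (κ := kap x) (by omega)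
    have hxs : sg x' = -sg x := by
      have h5 := hs (kap x)
      rw [hW] at h5
      simp only [List.map_append, List.map_cons, List.sum_append, List.sum_cons,
        sum_zero (fk_zero hA), sum_zero (fk_zero hM), sum_zero (fk_zero hB)] at h5
      have e1 : fk (kap x) x = sg x := by simp [fk]
      have e2 : fk (kap x) x' = sg x' := by simp [fk, hx]
      rw [e1, e2] at h5
      linarith
    have cκ : (W.map kap).count κ ≠ 0 := by
      rw [hW]
      simp only [List.map_append, List.map_cons, List.count_append, List.count_cons]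
      omega
    obtain ⟨k, hk⟩ := ho (kap x) κ (Ne.symm hκ) (by omega) cκ
    rw [hW, om_key (fk_zero hA) (fk_zero hM) (fk_zero hB) (fk_two (kap x) hxs hx)] at hk
    have e1 : fk (kap x) x = sg x := by simp [fk]
    have e2 : fk κ x = 0 := by simp [fk, Ne.symm hκ]
    have e3 : fk κ x' = 0 := by simp [fk, hx, Ne.symm hκ]
    rw [e1, e2, e3] at hk
    rcases sum_one h1 with h5 | h5 <;> rcases sg_one x with h6 | h6 <;> rw [h5, h6] at hk <;> omega

theorem om_rot {f g : Pass → ℤ} (A B : List Pass) (hf : (A.map f).sum + (B.map f).sum = 0)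
    (hg : (A.map g).sum + (B.map g).sum = 0) : om f g (A ++ B) = om f g (B ++ A) := by
  rw [om_append, om_append]
  have e1 : (B.map f).sum = -(A.map f).sum := by linarith
  have e2 : (B.map g).sum = -(A.map g).sum := by linarith
  rw [e1, e2]; ring

theorem sum_lin {a b : ℤ} {f f' : Pass → ℤ} (W : List Pass) :
    (W.map fun p => a * f p - b * f' p).sum = a * (W.map f).sum - b * (W.map f').sum := by
  induction W with
  | nil => simp
  | cons p W ih => simp only [List.map_cons, List.sum_cons, ih]; ring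

theorem om_lin {a b c d : ℤ} {f f' g g' : Pass → ℤ} (W : List Pass) :
    om (fun p => a * f p - b * f' p) (fun p => c * g p - d * g' p) W =
      a * c * om f g W - a * d * om f g' W - b * c * om f' g W + b * d * om f' g' W := by
  induction W with
  | nil => simp [om]
  | cons p W ih =>
    simp only [om, ih, sum_lin]
    ring

theorem om_self {f : Pass → ℤ} (W : List Pass) : om f f W = 0 := by
  have := om_swap (f := f) (g := f) (W := W)
  linarith

/-- cutting the annulus along a curve joining its two boundary circles -/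
theorem om_cut {κ κ₂ κ₃ : ℕ × Bool} (h2 : κ₂ ≠ κ) (h3 : κ₃ ≠ κ) {A B A' B' : List Pass}
    {x x' : Pass} (hx : kap x = κ) (hx' : kap x' = κ) (hs : sg x' = -sg x)
    (hA : ∀ y ∈ A, kap y ≠ κ) (hB : ∀ y ∈ B, kap y ≠ κ) (hA' : ∀ y ∈ A', kap y ≠ κ)
    (hB' : ∀ y ∈ B', kap y ≠ κ)
    (t : ∀ κ', ((A ++ x :: B).map (fk κ')).sum + ((A' ++ x' :: B').map (fk κ')).sum = 0)
    {s₁ s₂ s₃ : ℤ} (e1 : s₁ = ((A ++ x :: B).map (fk κ)).sum)
    (e2 : s₂ = ((A ++ x :: B).map (fk κ₂)).sum) (e3 : s₃ = ((A ++ x :: B).map (fk κ₃)).sum)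
    (h4 : (4 : ℤ) ∣ om (fun p => s₁ * fk κ₂ p - s₂ * fk κ p) (fun p => s₁ * fk κ₃ p - s₃ * fk κ p)
      (A ++ x :: B) + om (fun p => s₁ * fk κ₂ p - s₂ * fk κ p)
        (fun p => s₁ * fk κ₃ p - s₃ * fk κ p) (A' ++ x' :: B')) :
    (4 : ℤ) ∣ om (fk κ₂) (fk κ₃) ((B ++ A) ++ (B' ++ A')) := by
  have f1 : fk κ x = sg x := by simp [fk, hx]
  have f1' : fk κ x' = -sg x := by simp [fk, hx', hs]
  have f2 : fk κ₂ x = 0 := by simp [fk, hx, Ne.symm h2]
  have f2' : fk κ₂ x' = 0 := by simp [fk, hx', Ne.symm h2]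
  have f3 : fk κ₃ x = 0 := by simp [fk, hx, Ne.symm h3]
  have f3' : fk κ₃ x' = 0 := by simp [fk, hx', Ne.symm h3]
  have zA := fk_zero hA
  have zB := fk_zero hB
  have zA' := fk_zero hA'
  have zB' := fk_zero hB'
  have t2 := t κ₂
  have t3 := t κ₃
  simp only [List.map_append, List.map_cons, List.sum_append, List.sum_cons, f1, f1', f2, f2', f3,
    f3', sum_zero zA, sum_zero zB, sum_zero zA', sum_zero zB', zero_add, add_zero] at e1 e2 e3 t2 t3
  have r1 : ∀ {F G : Pass → ℤ}, (A.map F).sum + ((x :: B).map F).sum = 0 →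
      (A.map G).sum + ((x :: B).map G).sum = 0 → om F G (A ++ x :: B) = om F G (x :: B ++ A) :=
    fun h h' => om_rot _ _ h h'
  have r2 : ∀ {F G : Pass → ℤ}, (A'.map F).sum + ((x' :: B').map F).sum = 0 →
      (A'.map G).sum + ((x' :: B').map G).sum = 0 → om F G (A' ++ x' :: B') =
        om F G (x' :: B' ++ A') := fun h h' => om_rot _ _ h h'
  rw [r1, r2] at h4
  · simp only [om_lin, om_self, om_append, om, om_zero zA, om_zero zB, om_zero zA', om_zero zB',
      om_zero' zA, om_zero' zB, om_zero' zA', om_zero' zB', List.map_append, List.map_cons,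
      List.sum_append, List.sum_cons, f1, f1', f2, f2', f3,
      f3', sum_zero zA, sum_zero zB, sum_zero zA', sum_zero zB', List.cons_append] at h4 ⊢
    obtain ⟨k, hk⟩ := h4
    refine ⟨k, ?_⟩
    generalize om (fk κ₂) (fk κ₃) A = oA at hk ⊢
    generalize om (fk κ₂) (fk κ₃) B = oB at hk ⊢
    generalize om (fk κ₂) (fk κ₃) A' = oA' at hk ⊢
    generalize om (fk κ₂) (fk κ₃) B' = oB' at hk ⊢
    generalize (List.map (fk κ₂) A).sum = a2 at hk e2 t2 ⊢
    generalize (List.map (fk κ₂) B).sum = b2 at hk e2 t2 ⊢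
    generalize (List.map (fk κ₂) A').sum = a2' at hk t2 ⊢
    generalize (List.map (fk κ₂) B').sum = b2' at hk t2 ⊢
    generalize (List.map (fk κ₃) A).sum = a3 at hk e3 t3 ⊢
    generalize (List.map (fk κ₃) B).sum = b3 at hk e3 t3 ⊢
    generalize (List.map (fk κ₃) A').sum = a3' at hk t3 ⊢
    generalize (List.map (fk κ₃) B').sum = b3' at hk t3 ⊢
    have u2 : b2' = -a2 - b2 - a2' := by linarith
    have u3 : b3' = -a3 - b3 - a3' := by linarith
    rw [e1, e2, e3, u2, u3] at hk
    rw [u2, u3]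
    rcases sg_one x with h | h <;> rw [h] at hk <;> linear_combination hk
  · simp only [sum_lin, List.map_cons, List.sum_cons, f1', f2', sum_zero zA', sum_zero zB', e1, e2]
    linear_combination (sg x) * t2
  · simp only [sum_lin, List.map_cons, List.sum_cons, f1', f3', sum_zero zA', sum_zero zB', e1, e3]
    linear_combination (sg x) * t3
  · simp only [sum_lin, List.map_cons, List.sum_cons, f1, f2, sum_zero zA, sum_zero zB, e1, e2]
    ring
  · simp only [sum_lin, List.map_cons, List.sum_cons, f1, f3, sum_zero zA, sum_zero zB, e1, e3]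
    ring

end Pool.Agent.R800.AN
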