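import Pool.Agent.R800.AN.Even

/-! Curves crossing one another evenly in an annulus: the diagram. -/

namespace Pool.Agent.R800.AN

set_option linter.unusedSimpArgs false

open Pool.Agent.Y468.SR
open Pool.Agent.Y874.TP hiding S_REID S_REN S_THREE S_OUT S_CUT S_JUNC CStep CReid CM InvM InvC Inv3
open Pool.Agent.Y874.TP2
open Pool.Agent.Y874.TP2.T3
open Pool.Agent.R800.TP
open Pool.Agent.Y761.TP2 (Hs lbl valid_lbl wval_lbl pc_ab)

/-- the diagram consisting of two words bounding an annulus -/
def ann (w e : List Pass) : Code := [(w, 0)] ++ [(e, 0)]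

theorem passes_ann (w e : List Pass) : passes (ann w e) = w ++ e := by simp [ann]

theorem bv_ann {G : Type} [Group G] (o u : ℕ → G) (w e : List Pass) :
    bv (vals o u (ann w e)) 0 = [wval o u w, wval o u e] := by
  simp [ann, vals, bv]

section
variable {w e : List Pass} {Q : Code} {m : ℕ → ℕ}

theorem tot {f : Pass → ℤ} (hwf : WF (passes (ann w e ++ Q)))
    (hm : Matching (passes (ann w e ++ Q)) m) (hN : NullV (ann w e ++ Q) m)
    (hfl : ∀ p ∈ passes (ann w e ++ Q), f (part m p) = -f p)
    (hQ : ∀ C ∈ Q, (C.1.map f).sum = 0) : (w.map f).sum + (e.map f).sum = 0 := by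
  set P := passes (ann w e ++ Q) with hP
  set F : Pass → Hs := fun p => ⟨f p, f p, 0⟩ with hF
  set o := lbl P F true with ho
  set u := lbl P F false with hu
  have hV : Valid P m o u := valid_lbl hwf hm fun p hp => ⟨hfl p hp, hfl p hp⟩
  have hw : ∀ C ∈ ann w e ++ Q, wval o u C.1 = ⟨(C.1.map f).sum, (C.1.map f).sum, om f f C.1⟩ :=
    fun C hC => wval_lbl hwf f f C.1 fun p hp => mem_passes.2 ⟨C, hC, hp⟩
  have h1 := (pc_ab (hN Hs o u hV 0)).1
  have z1 : ((bv (vals o u Q) 0).map Hs.a).sum = 0 := by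
    refine List.sum_eq_zero fun y hy => ?_
    obtain ⟨x, hx, rfl⟩ := List.mem_map.1 hy
    simp only [bv, vals, List.mem_map, List.mem_filter] at hx
    obtain ⟨y, ⟨⟨C, hC, rfl⟩, -⟩, rfl⟩ := hx
    rw [hw C (by simp [hC])]
    exact hQ C hC
  rw [vals_append, bv_append, bv_ann, List.map_append, List.sum_append, z1, add_zero,
    List.map_cons, List.map_cons, List.map_nil, List.sum_cons, List.sum_cons, List.sum_nil,
    hw (w, 0) (by simp [ann]), hw (e, 0) (by simp [ann])] at h1
  have h2 : (0 : ℤ) = (w.map f).sum + ((e.map f).sum + 0) := h1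
  linarith

theorem om_ann {f g : Pass → ℤ} (hwf : WF (passes (ann w e ++ Q)))
    (hm : Matching (passes (ann w e ++ Q)) m) (hN : NullV (ann w e ++ Q) m)
    (hfl : ∀ p ∈ passes (ann w e ++ Q), f (part m p) = -f p ∧ g (part m p) = -g p)
    (hw : (w.map f).sum = 0 ∧ (w.map g).sum = 0)
    (hQ : ∀ C ∈ Q, (C.1.map f).sum = 0 ∧ (C.1.map g).sum = 0) :
    om f g w + om f g e + (Q.map fun C => om f g C.1).sum = 0 := by
  have t1 := tot hwf hm hN (fun p hp => (hfl p hp).1) fun C hC => (hQ C hC).1
  have t2 := tot hwf hm hN (fun p hp => (hfl p hp).2) fun C hC => (hQ C hC).2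
  obtain ⟨-, h⟩ := Pool.Agent.Y761.TP2.flow [] (ann w e ++ Q) m f g (by simp) hwf hm hN hfl (by
    intro C hC
    rcases List.mem_append.1 hC with hC | hC
    · simp only [ann, List.cons_append, List.nil_append, List.mem_cons, List.not_mem_nil,
        or_false] at hC
      rcases hC with rfl | rfl
      · exact hw
      · exact ⟨by simp only; linarith [hw.1], by simp only; linarith [hw.2]⟩
    · exact hQ C hC)
  simp only [ann, List.nil_append, List.cons_append, List.map_cons, List.sum_cons] at h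
  linarith

theorem sum_om_lin {a b c d : ℤ} {f f' g g' : Pass → ℤ} (Q : Code) :
    (Q.map fun C => om (fun p => a * f p - b * f' p) (fun p => c * g p - d * g' p) C.1).sum =
      a * c * (Q.map fun C => om f g C.1).sum - a * d * (Q.map fun C => om f g' C.1).sum -
      b * c * (Q.map fun C => om f' g C.1).sum + b * d * (Q.map fun C => om f' g' C.1).sum := by
  induction Q with
  | nil => simp
  | cons C Q ih =>
    simp only [List.map_cons, List.sum_cons]
    rw [ih, om_lin]
    ring

end

section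
variable {w e : List Pass} {Ts : List Tri} {m : ℕ → ℕ}

theorem tc_zero (hI : InvB (ann w e) Ts) (κ : ℕ × Bool) :
    ∀ C ∈ TC Ts, (C.1.map (fk κ)).sum = 0 := by
  obtain ⟨κ', hκ'⟩ : ∃ κ' : ℕ × Bool, κ ≠ κ' := ⟨(κ.1, !κ.2), by
    intro h
    have := congrArg Prod.snd h
    simp at this⟩
  exact (om_tris hκ' (Ts := Ts) fun T hT => (hI.ok T hT).2).1

theorem tot_fk (hI : InvB (ann w e) Ts) (hm : InvM (ann w e ++ TC Ts) m) (κ : ℕ × Bool) :
    (w.map (fk κ)).sum + (e.map (fk κ)).sum = 0 :=
  tot hI.wf hm.1 hm.2.2 (fun _ hp => fk_part hm.2.1 κ hp) (tc_zero hI κ)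

theorem tc_even (hI : InvB (ann w e) Ts) {κ κ' : ℕ × Bool} (hκ : κ ≠ κ')
    (he : Even ((Ts.flatMap tprs).count s(κ, κ'))) :
    ∃ k : ℤ, ((TC Ts).map fun C => om (fk κ) (fk κ') C.1).sum = 4 * k := by
  obtain ⟨-, k, hk⟩ := om_tris hκ (Ts := Ts) fun T hT => (hI.ok T hT).2
  obtain ⟨j, hj⟩ := he
  refine ⟨j + k, ?_⟩
  rw [hk, hj]
  push_cast
  ring

theorem pair_mod (hI : InvB (ann w e) Ts) (hm : InvM (ann w e ++ TC Ts) m) {κ κ' : ℕ × Bool}
    (hκ : κ ≠ κ') (he : Even ((Ts.flatMap tprs).count s(κ, κ')))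
    (h1 : (w.map (fk κ)).sum = 0) (h2 : (w.map (fk κ')).sum = 0) :
    (4 : ℤ) ∣ om (fk κ) (fk κ') w + om (fk κ) (fk κ') e := by
  obtain ⟨k, hk⟩ := tc_even hI hκ he
  have := om_ann hI.wf hm.1 hm.2.2 (f := fk κ) (g := fk κ')
    (fun p hp => ⟨fk_part hm.2.1 κ hp, fk_part hm.2.1 κ' hp⟩) ⟨h1, h2⟩
    fun C hC => ⟨tc_zero hI κ C hC, tc_zero hI κ' C hC⟩
  rw [hk] at this
  exact ⟨-k, by linarith⟩

theorem triple_mod (hI : InvB (ann w e) Ts) (hm : InvM (ann w e ++ TC Ts) m)
    {κ κ₂ κ₃ : ℕ × Bool} (h2 : κ₂ ≠ κ) (h3 : κ₃ ≠ κ) (h23 : κ₂ ≠ κ₃)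
    (e2 : Even ((Ts.flatMap tprs).count s(κ₂, κ))) (e3 : Even ((Ts.flatMap tprs).count s(κ, κ₃)))
    (e23 : Even ((Ts.flatMap tprs).count s(κ₂, κ₃))) {s₁ s₂ s₃ : ℤ}
    (q1 : s₁ = (w.map (fk κ)).sum) (q2 : s₂ = (w.map (fk κ₂)).sum)
    (q3 : s₃ = (w.map (fk κ₃)).sum) :
    (4 : ℤ) ∣ om (fun p => s₁ * fk κ₂ p - s₂ * fk κ p) (fun p => s₁ * fk κ₃ p - s₃ * fk κ p) w +
      om (fun p => s₁ * fk κ₂ p - s₂ * fk κ p) (fun p => s₁ * fk κ₃ p - s₃ * fk κ p) e := by
  obtain ⟨k2, hk2⟩ := tc_even hI h2 e2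
  obtain ⟨k3, hk3⟩ := tc_even hI h3.symm e3
  obtain ⟨k, hk⟩ := tc_even hI h23 e23
  have hs : ((TC Ts).map fun C => om (fk κ) (fk κ) C.1).sum = 0 := by
    refine List.sum_eq_zero fun y hy => ?_
    obtain ⟨C, -, rfl⟩ := List.mem_map.1 hy
    exact om_self _
  have := om_ann hI.wf hm.1 hm.2.2 (f := fun p => s₁ * fk κ₂ p - s₂ * fk κ p)
    (g := fun p => s₁ * fk κ₃ p - s₃ * fk κ p)
    (fun p hp => ⟨by simp only [fk_part hm.2.1 κ hp, fk_part hm.2.1 κ₂ hp]; ring,
      by simp only [fk_part hm.2.1 κ hp, fk_part hm.2.1 κ₃ hp]; ring⟩)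
    ⟨by rw [sum_lin, ← q1, ← q2]; ring, by rw [sum_lin, ← q1, ← q3]; ring⟩
    fun C hC => ⟨by rw [sum_lin, tc_zero hI κ C hC, tc_zero hI κ₂ C hC]; ring,
      by rw [sum_lin, tc_zero hI κ C hC, tc_zero hI κ₃ C hC]; ring⟩
  rw [sum_om_lin, hk, hk2, hk3, hs] at this
  exact ⟨-(s₁ * s₁ * k - s₁ * s₃ * k2 - s₂ * s₁ * k3), by linear_combination this⟩

end

/-! ### The matching -/

theorem partner_of_sum {P : List Pass} {κ : ℕ × Bool} (hs : (P.map (fk κ)).sum = 0)
    (h2 : (P.map kap).count κ ≤ 2) {p : Pass} (hp : p ∈ P) (hk : kap p = κ) :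
    ∃ q ∈ P, q ≠ p ∧ kap q = kap p ∧ sg q = -sg p := by
  have h0 : (P.map kap).count κ ≠ 0 := fun h => of_count_zero h p hp hk
  have h1 : (P.map kap).count κ ≠ 1 := by
    intro h4
    rcases sum_one h4 with h5 | h5 <;> rw [hs] at h5 <;> simp at h5
  obtain ⟨A, x, B, hAB, hx, hA⟩ := split_one h0
  have h3 : (B.map kap).count κ = 1 := by
    rw [hAB, List.map_append, List.map_cons, List.count_append, count_zero hA, hx,
      List.count_cons_self] at h1 h2
    omega
  obtain ⟨M, x', B', rfl, hx', hM⟩ := split_one (W := B) (κ := κ) (by omega)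
  have hB' : (B'.map kap).count κ = 0 := by
    rw [List.map_append, List.map_cons, List.count_append, count_zero hM, hx',
      List.count_cons_self] at h3
    omega
  have hs' : sg x' = -sg x := by
    rw [hAB] at hs
    simp only [List.map_append, List.map_cons, List.sum_append, List.sum_cons,
      sum_zero (fk_zero hA), sum_zero (fk_zero hM), sum_zero (fk_zero (of_count_zero hB'))] at hs
    have e1 : fk κ x = sg x := by simp [fk, hx]
    have e2 : fk κ x' = sg x' := by simp [fk, hx']
    rw [e1, e2] at hs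
    linarith
  have hxm : x ∈ P := by rw [hAB]; simp
  have hxm' : x' ∈ P := by rw [hAB]; simp
  have hxx : x ≠ x' := by
    intro h
    rw [h] at hs'
    rcases sg_one x' with h6 | h6 <;> rw [h6] at hs' <;> simp at hs'
  have hcase : p = x ∨ p = x' := by
    by_contra hno
    rw [not_or] at hno
    have := three_le hp hxm hxm' hk hx hx' hno.1 hno.2 hxx
    omega
  rcases hcase with rfl | rfl
  · exact ⟨x', hxm', hxx.symm, hx'.trans hk.symm, hs'⟩
  · exact ⟨x, hxm, hxx, hx.trans hk.symm, by rw [hs', neg_neg]⟩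

section
variable {D : Code} (hW : WF (passes D)) (hc : ∀ κ, ((passes D).map kap).count κ ≤ 2)
include hW hc

theorem mt_matching' (hs : ∀ κ, ((passes D).map (fk κ)).sum = 0) :
    Matching (passes D) (mt D) := by
  intro p hp
  obtain ⟨q, hq, h1, h2, h3⟩ := partner_of_sum (hs (kap p)) (hc _) hp rfl
  by_cases h : colour p.crossing % 2 = 0
  · have e : mt D p.crossing = p.crossing := by
      unfold TP.mt; rw [if_pos h]
    exact ⟨p, hp, e.symm, e, fun h => absurd rfl h⟩
  · obtain ⟨e1, e2, e3⟩ := odd_case hW hc hp hq h1 h2 h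
    have h' : colour q.crossing % 2 ≠ 0 := by
      have := congrArg Prod.fst h2
      have h4 : colour q.crossing = colour p.crossing := this
      rw [h4]; exact h
    obtain ⟨-, -, e4⟩ := odd_case hW hc hq hp (Ne.symm h1) h2.symm h'
    refine ⟨q, hq, e3.symm, e4, fun _ => ?_⟩
    unfold sg at h3
    rw [e1] at h3
    cases h5 : p.isOver <;> cases h6 : p.isPos <;> cases h7 : q.isPos <;> rw [h5, h6, h7] at h3 <;>
      simp at h3 <;> rfl

theorem mt_val' {G : Type} [Group G] {o u : ℕ → G} (hv : Valid (passes D) (mt D) o u) {x x' : Pass}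
    (hx : x ∈ passes D) (hx' : x' ∈ passes D) (hne : x' ≠ x) (hk : kap x' = kap x) :
    val o u x' = (val o u x)⁻¹ := by
  obtain ⟨v1, v2⟩ := hv x hx
  by_cases h : colour x.crossing % 2 = 0
  · have e := even_case hW hc hx hx' hne hk h
    have e' : mt D x.crossing = x.crossing := by
      unfold TP.mt; rw [if_pos h]
    have h1 := v1 e'
    rw [e]
    unfold val Pass.mate
    cases h2 : x.isOver <;> simp [h1]
  · obtain ⟨e1, e2, e3⟩ := odd_case hW hc hx hx' hne hk h
    have h1 := v2 (by rw [e3]; exact e2)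
    rw [e3] at h1
    unfold val
    rw [e1]
    split_ifs
    · exact h1.1
    · exact h1.2

end

theorem wval_eq_one {G : Type} [Group G] {o u : ℕ → G} {W : List Pass} (h : Cf (val o u) W) :
    wval o u W = 1 := Cf.prod (val o u) W.length W le_rfl h

theorem mem_of_count {W : List Pass} {κ : ℕ × Bool} (h : (W.map kap).count κ ≠ 0) :
    ∃ p ∈ W, kap p = κ := by
  obtain ⟨A, x, B, rfl, hx, -⟩ := split_one h
  exact ⟨x, by simp, hx⟩

/-- the annulus condition -/
theorem nullR_mt {w e : List Pass} {Ts : List Tri} {m : ℕ → ℕ} (hI : InvB (ann w e) Ts)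
    (hm : InvM (ann w e ++ TC Ts) m) (hW : WF (w ++ e))
    (hc : ∀ κ, ((w ++ e).map kap).count κ ≤ 2)
    (he : ∀ p ∈ w ++ e, ∀ q ∈ w ++ e, kap p ≠ kap q →
      Even ((Ts.flatMap tprs).count s(kap p, kap q))) :
    Matching (passes [(w, 0)] ++ e) (mt (ann w e)) ∧ NullR [(w, 0)] e (mt (ann w e)) := by
  have hP := passes_ann w e
  have hP' : passes [(w, 0)] ++ e = w ++ e := by simp
  have hs : ∀ κ, ((w ++ e).map (fk κ)).sum = 0 := fun κ => by
    rw [List.map_append, List.sum_append]; exact tot_fk hI hm κ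
  have hW' : WF (passes (ann w e)) := by rw [hP]; exact hW
  have hc' : ∀ κ, ((passes (ann w e)).map kap).count κ ≤ 2 := by rw [hP]; exact hc
  have hnd : (w ++ e).Nodup := WF.nodup hW
  have hcc : ∀ κ, (w.map kap).count κ + (e.map kap).count κ ≤ 2 := fun κ => by
    have := hc κ
    rwa [List.map_append, List.count_append] at this
  have h1' : ∀ κ, (w.map kap).count κ + (e.map kap).count κ ≠ 1 := fun κ h4 => by
    have h4' : ((w ++ e).map kap).count κ = 1 := by
      rw [List.map_append, List.count_append]; exact h4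
    rcases sum_one h4' with h5 | h5 <;> rw [hs κ] at h5 <;> simp at h5
  refine ⟨?_, ?_⟩
  · rw [hP', ← hP]
    exact mt_matching' hW' hc' (by rw [hP]; exact hs)
  intro G _ o u hv C hC
  rw [List.mem_singleton] at hC
  subst hC
  refine ⟨fun h => absurd rfl h, fun _ => ?_⟩
  have hv' : Valid (passes (ann w e)) (mt (ann w e)) o u := by rw [hP, ← hP']; exact hv
  have hval : ∀ x ∈ w ++ e, ∀ x' ∈ w ++ e, x' ≠ x → kap x' = kap x →
      val o u x' = (val o u x)⁻¹ := fun x hx x' hx' hne hk =>
    mt_val' hW' hc' hv' (by rw [hP]; exact hx) (by rw [hP]; exact hx') hne hk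
  show CN [wval o u w, wval o u e]
  by_cases hex : ∃ κ, (w.map kap).count κ = 1
  · obtain ⟨κ, hκ⟩ := hex
    have hκ' : (e.map kap).count κ = 1 := by
      have := hcc κ; have := h1' κ; omega
    obtain ⟨A, x, B, rfl, hx, hA⟩ := split_one (W := w) (κ := κ) (by omega)
    obtain ⟨A', x', B', rfl, hx', hA'⟩ := split_one (W := e) (κ := κ) (by omega)
    have hB : ∀ y ∈ B, kap y ≠ κ := of_count_zero (by
      rw [List.map_append, List.map_cons, List.count_append, count_zero hA, hx,
        List.count_cons_self] at hκ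
      omega)
    have hB' : ∀ y ∈ B', kap y ≠ κ := of_count_zero (by
      rw [List.map_append, List.map_cons, List.count_append, count_zero hA', hx',
        List.count_cons_self] at hκ'
      omega)
    have t := tot_fk hI hm
    have hxs : sg x' = -sg x := by
      have h5 := t κ
      simp only [List.map_append, List.map_cons, List.sum_append, List.sum_cons,
        sum_zero (fk_zero hA), sum_zero (fk_zero hB), sum_zero (fk_zero hA'),
        sum_zero (fk_zero hB')] at h5
      have e1 : fk κ x = sg x := by simp [fk, hx]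
      have e2 : fk κ x' = sg x' := by simp [fk, hx']
      rw [e1, e2] at h5
      linarith
    have hperm : ((A ++ x :: B) ++ (A' ++ x' :: B')).Perm
        (x :: x' :: ((B ++ A) ++ (B' ++ A'))) := by
      rw [List.perm_iff_count]
      intro a
      simp only [List.count_append, List.count_cons]
      omega
    have hsub : ∀ y ∈ (B ++ A) ++ (B' ++ A'), y ∈ (A ++ x :: B) ++ (A' ++ x' :: B') :=
      fun y hy => hperm.symm.subset (List.mem_cons_of_mem _ (List.mem_cons_of_mem _ hy))
    have hcount : ∀ κ', ((((B ++ A) ++ (B' ++ A'))).map kap).count κ' ≤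
        (((A ++ x :: B) ++ (A' ++ x' :: B')).map kap).count κ' := fun κ' => by
      rw [(hperm.map kap).count_eq, List.map_cons, List.map_cons]
      exact ((List.sublist_cons_self _ _).trans (List.sublist_cons_self _ _)).count_le _
    have hCf : Cf (val o u) ((B ++ A) ++ (B' ++ A')) := by
      refine cf_of_om ?_ (fun κ' => (hcount κ').trans (hc κ')) (fun κ' => ?_)
        (fun κ₂ κ₃ h23 c2 c3 => ?_) (fun y hy y' hy' hne hk =>
          hval y (hsub y hy) y' (hsub y' hy') hne hk)
      · have := hperm.nodup_iff.1 hnd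
        exact (List.nodup_cons.1 (List.nodup_cons.1 this).2).2
      · by_cases hk : κ' = κ
        · rw [hk]
          refine sum_zero (fk_zero fun y hy => ?_)
          simp only [List.mem_append] at hy
          rcases hy with (hy | hy) | (hy | hy)
          · exact hB y hy
          · exact hA y hy
          · exact hB' y hy
          · exact hA' y hy
        · have h5 := hs κ'
          rw [(hperm.map (fk κ')).sum_eq, List.map_cons, List.map_cons, List.sum_cons,
            List.sum_cons] at h5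
          have e1 : fk κ' x = 0 := by simp [fk, hx, Ne.symm hk]
          have e2 : fk κ' x' = 0 := by simp [fk, hx', Ne.symm hk]
          rw [e1, e2] at h5
          linarith
      · have hnκ : ∀ y ∈ (B ++ A) ++ (B' ++ A'), kap y ≠ κ := by
          intro y hy
          simp only [List.mem_append] at hy
          rcases hy with (hy | hy) | (hy | hy)
          · exact hB y hy
          · exact hA y hy
          · exact hB' y hy
          · exact hA' y hy
        obtain ⟨y₂, hy₂, rfl⟩ := mem_of_count c2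
        obtain ⟨y₃, hy₃, rfl⟩ := mem_of_count c3
        have n2 := hnκ y₂ hy₂
        have n3 := hnκ y₃ hy₃
        have hxm : x ∈ (A ++ x :: B) ++ (A' ++ x' :: B') := by simp
        refine om_cut n2 n3 hx hx' hxs hA hB hA' hB' t rfl rfl rfl ?_
        refine triple_mod hI hm n2 n3 h23 ?_ ?_ (he _ (hsub _ hy₂) _ (hsub _ hy₃) h23) rfl rfl rfl
        · rw [← hx]
          exact he _ (hsub _ hy₂) _ hxm (by rw [hx]; exact n2)
        · rw [← hx]
          exact he _ hxm _ (hsub _ hy₃) (by rw [hx]; exact Ne.symm n3)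
    have h6 := wval_eq_one hCf
    simp only [wval_append] at h6
    have h7 : val o u x' = (val o u x)⁻¹ := by
      refine hval x (by simp) x' (by simp) ?_ (hx'.trans hx.symm)
      rintro rfl
      rcases sg_one x' with h | h <;> rw [h] at hxs <;> simp at hxs
    simp only [wval_append, wval_cons, h7]
    rw [cn_pair]
    refine ⟨wval o u A * wval o u B', ?_⟩
    generalize wval o u A = a at h6 ⊢
    generalize wval o u B = b at h6 ⊢
    generalize wval o u A' = a' at h6 ⊢
    generalize wval o u B' = b' at h6 ⊢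
    generalize val o u x = z
    have : a * (z * b) * (a * b' * (a' * (z⁻¹ * b')) * (a * b')⁻¹) =
        (a * z) * (b * a * (b' * a')) * (a * z)⁻¹ := by group
    rw [this, h6]
    group
  · push Not at hex
    have hw0 : ∀ κ, (w.map (fk κ)).sum = 0 := by
      intro κ
      by_cases h0 : (w.map kap).count κ = 0
      · exact sum_zero (fk_zero (of_count_zero h0))
      · have h2 : (e.map kap).count κ = 0 := by
          have := hcc κ; have := hex κ; omega
        have h3 := tot_fk hI hm κ
        rw [sum_zero (fk_zero (of_count_zero h2)), add_zero] at h3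
        exact h3
    have he0 : ∀ κ, (e.map (fk κ)).sum = 0 := fun κ => by
      have h3 := tot_fk hI hm κ
      rw [hw0 κ, zero_add] at h3
      exact h3
    have hnd' := List.nodup_append.1 hnd
    have hwe : ∀ κ, (w.map kap).count κ ≠ 0 → (e.map kap).count κ = 0 := by
      intro κ h
      have := hcc κ; have := hex κ; omega
    have cw : Cf (val o u) w := by
      refine cf_of_om hnd'.1 (fun κ => by have := hcc κ; omega) hw0 (fun κ κ' hκ c1 c2 => ?_)
        fun y hy y' hy' hne hk => hval y (by simp [hy]) y' (by simp [hy']) hne hk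
      obtain ⟨y₂, hy₂, rfl⟩ := mem_of_count c1
      obtain ⟨y₃, hy₃, rfl⟩ := mem_of_count c2
      have := pair_mod hI hm hκ (he _ (by simp [hy₂]) _ (by simp [hy₃]) hκ) (hw0 _) (hw0 _)
      rwa [om_zero (W := e) (fk_zero (of_count_zero (hwe _ c1))), add_zero] at this
    have ce : Cf (val o u) e := by
      refine cf_of_om hnd'.2.1 (fun κ => by have := hcc κ; omega) he0 (fun κ κ' hκ c1 c2 => ?_)
        fun y hy y' hy' hne hk => hval y (by simp [hy]) y' (by simp [hy']) hne hk
      have h3 : (w.map kap).count κ = 0 := by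
        by_contra h
        exact c1 (hwe κ h)
      obtain ⟨y₂, hy₂, rfl⟩ := mem_of_count c1
      obtain ⟨y₃, hy₃, rfl⟩ := mem_of_count c2
      have := pair_mod hI hm hκ (he _ (by simp [hy₂]) _ (by simp [hy₃]) hκ) (hw0 _) (hw0 _)
      rwa [om_zero (W := w) (fk_zero (of_count_zero h3)), zero_add] at this
    rw [wval_eq_one cw, wval_eq_one ce]
    exact cn_pair.2 ⟨1, by simp⟩

end Pool.Agent.R800.AN
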