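import Pool.Agent.R800.AN.Defs

/-! Movies of concordances yield the invariant. -/

namespace Pool.Agent.R800.AN

set_option linter.unusedSimpArgs false

open Pool.Agent.Y468.SR
open Pool.Agent.Y874.TP hiding S_REID S_REN S_THREE S_OUT S_CUT S_JUNC CStep CReid CM InvM InvC Inv3
open Pool.Agent.Y874.TP2
open Pool.Agent.Y874.TP2.T3
open Pool.Agent.Y874.TP2.T4 (del de dw cstep_del wf_del del_cons dw_eq_nil dw_append enc_del de_append
  de_two_keep de_two_swap enc_inj triAt_crossing mem_three del_eq)

variable {Z : ℕ → Prop}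

/-- the doubled name -/
def ev (c : ℕ) : ℕ := Nat.pair (colour c) (2 * c.unpair.2)

/-- the doubled name, second version -/
def od (c : ℕ) : ℕ := Nat.pair (colour c) (2 * c.unpair.2 + 1)

/-- names of the second kind -/
abbrev IsOd (c : ℕ) : Prop := c.unpair.2 % 2 = 1

theorem colour_ev (c : ℕ) : colour (ev c) = colour c := by simp [colour, ev]

theorem colour_od (c : ℕ) : colour (od c) = colour c := by simp [colour, od]

theorem ev_two (c : ℕ) : (ev c).unpair.2 = 2 * c.unpair.2 := by simp [ev]

theorem od_two (c : ℕ) : (od c).unpair.2 = 2 * c.unpair.2 + 1 := by simp [od]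

theorem ext_pair {a b : ℕ} (h : colour a = colour b) (h' : a.unpair.2 = b.unpair.2) : a = b := by
  rw [← Nat.pair_unpair a, ← Nat.pair_unpair b]
  unfold colour at h
  rw [h, h']

theorem ev_inj : Function.Injective ev := by
  intro a b h
  refine ext_pair (by rw [← colour_ev a, ← colour_ev b, h]) ?_
  have := congrArg (fun c => c.unpair.2) h
  simp only [ev_two] at this
  omega

theorem od_inj : Function.Injective od := by
  intro a b h
  refine ext_pair (by rw [← colour_od a, ← colour_od b, h]) ?_
  have := congrArg (fun c => c.unpair.2) h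
  simp only [od_two] at this
  omega

theorem not_isOd_ev (c : ℕ) : ¬IsOd (ev c) := by
  unfold IsOd
  rw [ev_two]; omega

theorem isOd_od (c : ℕ) : IsOd (od c) := by
  unfold IsOd
  rw [od_two]; omega

/-- half of the name -/
def hf (c : ℕ) : ℕ := Nat.pair (colour c) (c.unpair.2 / 2)

theorem hf_ev (c : ℕ) : hf (ev c) = c := by
  refine ext_pair (by simp [hf, colour, ev]) ?_
  simp only [hf, Nat.unpair_pair, ev_two]
  omega

theorem hf_od (c : ℕ) : hf (od c) = c := by
  refine ext_pair (by simp [hf, colour, od]) ?_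
  simp only [hf, Nat.unpair_pair, od_two]
  omega

theorem creid_ren {φ : ℕ → ℕ} (hφ : Function.Injective φ) (hc : ∀ c, colour (φ c) = colour c)
    {E E' : List (Pass ⊕ ℕ)} (h : CReid E E') (F : List (Pass ⊕ ℕ)) :
    CReid (eren φ E ++ F) (eren φ E' ++ F) := by
  have e : ∀ p q, eren φ (two p q) = two (ren φ p) (ren φ q) := fun _ _ => rfl
  have ea : ∀ X Y, eren φ (X ++ Y) = eren φ X ++ eren φ Y := fun _ _ => List.map_append
  have ec : ∀ p, colour (ren φ p).crossing = colour p.crossing := fun p => hc _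
  cases h with
  | one A B p h =>
    simp only [ea, e, ← ren_mate]
    have := Y874.TP2.CReid.one (eren φ A) (eren φ B ++ F) (ren φ p) (by rw [ec]; exact h)
    simpa only [List.append_assoc] using this
  | twoSame A B C p q h ho hs h' =>
    simp only [ea, e, ← ren_mate]
    have := Y874.TP2.CReid.twoSame (eren φ A) (eren φ B) (eren φ C ++ F) (ren φ p) (ren φ q)
      (fun h' => h (hφ h')) ho hs (by rw [ec, ec]; exact h')
    simpa only [List.append_assoc] using this
  | twoOpp A B C p q h ho hs h' =>
    simp only [ea, e, ← ren_mate]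
    have := Y874.TP2.CReid.twoOpp (eren φ A) (eren φ B) (eren φ C ++ F) (ren φ p) (ren φ q)
      (fun h' => h (hφ h')) ho hs (by rw [ec, ec]; exact h')
    simpa only [List.append_assoc] using this

theorem labels_creid {D D' : Code} (h : CReid (enc D) (enc D')) :
    D.map Prod.snd = D'.map Prod.snd := by
  rw [← rl_enc, ← rl_enc]
  generalize enc D = E at h
  generalize enc D' = E' at h
  cases h <;> simp

theorem cstep_dbl {D D' : Code} (h : CStep D D') {e : List Pass}
    (hodd : ∀ p ∈ e, IsOd p.crossing) {κ' : ℕ} (hκ' : ∃ C ∈ D', C.2 = κ') :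
    ∃ κ, (∃ C ∈ D, C.2 = κ) ∧ CStep (renamed ev D ++ [(e, κ)]) (renamed ev D' ++ [(e, κ')]) := by
  cases h with
  | perm _ _ h =>
    obtain ⟨C, hC, rfl⟩ := hκ'
    exact ⟨C.2, ⟨C, h.symm.subset hC, rfl⟩, Y874.TP2.CStep.perm _ _ ((h.map _).append_right _)⟩
  | rename f _ hf' hcol =>
    obtain ⟨C, hC, rfl⟩ := hκ'
    obtain ⟨C', hC', rfl⟩ := List.mem_map.1 hC
    refine ⟨C'.2, ⟨C', hC', rfl⟩, ?_⟩
    have hd : ∀ p ∈ passes (renamed ev D), ∃ p' ∈ passes D, p = ren ev p' := by
      intro p hp
      rw [passes_renamed] at hp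
      obtain ⟨p', hp', rfl⟩ := List.mem_map.1 hp
      exact ⟨p', hp', rfl⟩
    set F : ℕ → ℕ := fun n => if n.unpair.2 % 2 = 1 then n else ev (f (hf n)) with hF
    have Fe : ∀ c, F (ev c) = ev (f c) := by
      intro c
      rw [hF]
      simp only
      rw [if_neg (not_isOd_ev c), hf_ev]
    have Fo : ∀ c, IsOd c → F c = c := by
      intro c hc
      rw [hF]
      simp only
      exact if_pos hc
    have := Y874.TP2.CStep.rename F (renamed ev D ++ [(e, C'.2)]) (by
        intro p hp q hq h
        simp only [passes_append, passes_cons, passes_nil, List.append_nil, List.mem_append] at hp hq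
        rcases hp with hp | hp <;> rcases hq with hq | hq
        · obtain ⟨p', hp', rfl⟩ := hd p hp
          obtain ⟨q', hq', rfl⟩ := hd q hq
          have e1 : ∀ p, (ren ev p).crossing = ev p.crossing := fun _ => rfl
          rw [e1, e1, Fe, Fe] at h
          rw [e1, e1, hf' p' hp' q' hq' (ev_inj h)]
        · exfalso
          obtain ⟨p', hp', rfl⟩ := hd p hp
          have e1 : ∀ p, (ren ev p).crossing = ev p.crossing := fun _ => rfl
          rw [e1, Fe, Fo _ (hodd q hq)] at h
          exact not_isOd_ev _ (h ▸ hodd q hq)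
        · exfalso
          obtain ⟨q', hq', rfl⟩ := hd q hq
          have e1 : ∀ p, (ren ev p).crossing = ev p.crossing := fun _ => rfl
          rw [e1, Fe, Fo _ (hodd p hp)] at h
          exact not_isOd_ev _ (h ▸ hodd p hp)
        · rw [Fo _ (hodd p hp), Fo _ (hodd q hq)] at h
          exact h) (by
        intro p hp
        simp only [passes_append, passes_cons, passes_nil, List.append_nil, List.mem_append] at hp
        rcases hp with hp | hp
        · obtain ⟨p', hp', rfl⟩ := hd p hp
          have e1 : ∀ p, (ren ev p).crossing = ev p.crossing := fun _ => rfl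
          rw [e1, Fe, colour_ev, colour_ev, hcol p' hp']
        · rw [Fo _ (hodd p hp)])
    have e1 : renamed F (renamed ev D ++ [(e, C'.2)]) =
        renamed ev (renamed f D) ++ [(e, C'.2)] := by
      unfold renamed
      rw [List.map_append]
      congr 1
      · simp only [List.map_map]
        refine List.map_congr_left fun C _ => ?_
        simp only [Function.comp, List.map_map]
        refine Prod.ext ?_ rfl
        simp only
        refine List.map_congr_left fun p _ => ?_
        simp [Fe]
      · simp only [List.map_cons, List.map_nil, List.cons.injEq, and_true]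
        refine Prod.ext ?_ rfl
        simp only
        conv_rhs => rw [← List.map_id e]
        refine List.map_congr_left fun p hp => ?_
        simp [Fo _ (hodd p hp)]
    rw [e1] at this
    exact this
  | rotate x y b R =>
    have hk : ∃ C ∈ ((x ++ y, b) :: R), C.2 = κ' := by
      obtain ⟨C, hC, h⟩ := hκ'
      rcases List.mem_cons.1 hC with rfl | hC
      · exact ⟨_, List.mem_cons_self, h⟩
      · exact ⟨C, List.mem_cons_of_mem _ hC, h⟩
    refine ⟨κ', hk, ?_⟩
    have := Y874.TP2.CStep.rotate (x.map (ren ev)) (y.map (ren ev)) b (renamed ev R ++ [(e, κ')])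
    simpa [renamed_def] using this
  | reid _ _ h =>
    have hl := labels_creid h
    obtain ⟨C, hC, hh⟩ := hκ'
    have : C.2 ∈ D.map Prod.snd := by rw [hl]; exact List.mem_map_of_mem hC
    obtain ⟨C', hC', h'⟩ := List.mem_map.1 this
    refine ⟨κ', ⟨C', hC', by rw [h', hh]⟩, Y874.TP2.CStep.reid _ _ ?_⟩
    rw [enc_append, enc_append, enc_renamed, enc_renamed]
    exact creid_ren ev_inj colour_ev h _
  | reidInv _ _ h =>
    have hl := labels_creid h
    obtain ⟨C, hC, hh⟩ := hκ'
    have : C.2 ∈ D.map Prod.snd := by rw [← hl]; exact List.mem_map_of_mem hC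
    obtain ⟨C', hC', h'⟩ := List.mem_map.1 this
    refine ⟨κ', ⟨C', hC', by rw [h', hh]⟩, Y874.TP2.CStep.reidInv _ _ ?_⟩
    rw [enc_append, enc_append, enc_renamed, enc_renamed]
    exact creid_ren ev_inj colour_ev h _
  | death b R hb =>
    obtain ⟨C, hC, hh⟩ := hκ'
    refine ⟨κ', ⟨C, List.mem_cons_of_mem _ hC, hh⟩, ?_⟩
    have := Y874.TP2.CStep.death b (renamed ev D' ++ [(e, κ')]) (by
      intro C' hC'
      rcases List.mem_append.1 hC' with hC' | hC'
      · obtain ⟨C'', hC'', rfl⟩ := List.mem_map.1 hC'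
        exact hb C'' hC''
      · rw [List.mem_singleton.1 hC', ← hh]
        exact hb C hC)
    simpa [renamed_def] using this
  | birth b R hb =>
    have hk : ∃ C ∈ D, C.2 = κ' := by
      obtain ⟨C, hC, h⟩ := hκ'
      rcases List.mem_cons.1 hC with rfl | hC
      · obtain ⟨C', hC', h'⟩ := hb
        exact ⟨C', hC', by rw [h', ← h]⟩
      · exact ⟨C, hC, h⟩
    refine ⟨κ', hk, ?_⟩
    have := Y874.TP2.CStep.birth b (renamed ev D ++ [(e, κ')]) (by
      obtain ⟨C', hC', h'⟩ := hb
      exact ⟨_, List.mem_append_left _ (List.mem_map_of_mem hC'), h'⟩)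
    simpa [renamed_def] using this
  | split x y b b' R hb =>
    refine ⟨if κ' = b' then b else κ', ?_, ?_⟩
    · obtain ⟨C, hC, h⟩ := hκ'
      simp only [List.mem_cons] at hC
      rcases hC with rfl | rfl | hC
      · refine ⟨_, List.mem_cons_self, ?_⟩
        simp only at h ⊢
        rw [← h, if_neg hb]
      · refine ⟨_, List.mem_cons_self, ?_⟩
        simp only at h ⊢
        rw [← h, if_pos rfl]
      · refine ⟨(C.1, if C.2 = b' then b else C.2), List.mem_cons_of_mem _
          (List.mem_map_of_mem (f := fun C => (C.1, if C.2 = b' then b else C.2)) hC), ?_⟩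
        simp only
        rw [h]
    · have := Y874.TP2.CStep.split (x.map (ren ev)) (y.map (ren ev)) b b' (renamed ev R ++ [(e, κ')]) hb
      simpa [renamed_def, Function.comp_def] using this
  | merge x y b R =>
    have hk : ∃ C ∈ ((x, b) :: (y, b) :: R), C.2 = κ' := by
      obtain ⟨C, hC, h⟩ := hκ'
      rcases List.mem_cons.1 hC with rfl | hC
      · exact ⟨_, List.mem_cons_self, h⟩
      · exact ⟨C, List.mem_cons_of_mem _ (List.mem_cons_of_mem _ hC), h⟩
    refine ⟨κ', hk, ?_⟩
    have := Y874.TP2.CStep.merge (x.map (ren ev)) (y.map (ren ev)) b (renamed ev R ++ [(e, κ')])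
    simpa [renamed_def] using this

theorem triAt_ren {φ : ℕ → ℕ} (hφ : Function.Injective φ) {x y z : ℕ} {t m b : Pass × Pass}
    (h : TriAt x y z t m b) : TriAt (φ x) (φ y) (φ z) (ren φ t.1, ren φ t.2)
      (ren φ m.1, ren φ m.2) (ren φ b.1, ren φ b.2) := by
  cases h with
  | mk sx sy sz τ μ β hxy hyz hxz h₁ h₂ =>
    have := TriAt.mk (φ x) (φ y) (φ z) sx sy sz τ μ β (hφ.ne hxy) (hφ.ne hyz) (hφ.ne hxz) h₁ h₂
    cases τ <;> cases μ <;> cases β <;> exact this

theorem wf_dbl' {D : Code} {e : List Pass} {κ : ℕ} (hD : WF (passes D)) (he : WF e)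
    (hodd : ∀ p ∈ e, IsOd p.crossing) : WF (passes (renamed ev D ++ [(e, κ)])) := by
  rw [passes_append, passes_renamed]
  simp only [passes_cons, passes_nil, List.append_nil]
  refine WF.append (WF.ren hD fun p _ q _ h => ev_inj h) he fun p hp q hq h => ?_
  obtain ⟨p', -, rfl⟩ := List.mem_map.1 hp
  have := hodd q hq
  rw [← h] at this
  exact not_isOd_ev _ this

theorem cmovie_classical {E D : Code} {T : List (ℕ × ℕ × ℕ)} (h : CMovie Z E D T) :
    Classical D := by
  cases h with
  | refl h => exact h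
  | step h _ _ => exact h
  | three h => exact h
  | inner h => exact h

theorem cmovie_inv (hreid : S_REID) (hren : S_REN) (hthree : S_THREE) {E D : Code}
    {T : List (ℕ × ℕ × ℕ)} (h : CMovie Z E D T) {e : List Pass} (he : WF e)
    (hodd : ∀ p ∈ e, IsOd p.crossing)
    (hE : ∃ κ, (∃ C ∈ del Z E, C.2 = κ) ∧ InvB (renamed ev (del Z E) ++ [(e, κ)]) []) :
    ∃ κ Ts, (∃ C ∈ del Z D, C.2 = κ) ∧ InvB (renamed ev (del Z D) ++ [(e, κ)]) Ts ∧
      Ts.map sig = T.map fun t => (t, (true, true, true)) := by
  induction h with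
  | refl h =>
    obtain ⟨κ, h1, h2⟩ := hE
    exact ⟨κ, [], h1, h2, rfl⟩
  | @step D D' T hD hs hm ih =>
    obtain ⟨κ', Ts, h0, h1, h2⟩ := ih
    rcases cstep_del (Z := Z) hs with h | h
    · obtain ⟨κ, hκ, hS⟩ := cstep_dbl h hodd h0
      obtain ⟨Ts', k1, k2⟩ := cstep_liftB hreid hren (wf_dbl' (wf_del hD.1) he hodd)
        (wf_dbl' (wf_del (cmovie_classical hm).1) he hodd) hS h1
      exact ⟨κ, Ts', hκ, k1, k2.trans h2⟩
    · exact ⟨κ', Ts, by rw [h]; exact h0, by rw [h]; exact h1, h2⟩
  | @three D D' T hD A B C F X Y W t m b x y z hT hP hE hE' hZ hm ih =>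
    obtain ⟨κ, Ts, h0, h1, h2⟩ := ih
    obtain ⟨c1, c2, c3⟩ := triAt_crossing hT
    have key : ∀ {u v : ℕ} {q : Pass × Pass}, ¬Z (colour u) → ¬Z (colour v) →
        (q.1.crossing = u ∧ q.2.crossing = v ∨ q.1.crossing = v ∧ q.2.crossing = u) →
        ¬Z (colour q.1.crossing) ∧ ¬Z (colour q.2.crossing) := by
      intro u v q hu hv hq
      rcases hq with ⟨e1, e2⟩ | ⟨e1, e2⟩ <;> rw [e1, e2] <;> exact ⟨by assumption, by assumption⟩
    obtain ⟨⟨x1, x2⟩, ⟨y1, y2⟩, w1, w2⟩ := mem_three hP (P := fun q : Pass × Pass =>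
      ¬Z (colour q.1.crossing) ∧ ¬Z (colour q.2.crossing)) (key hZ.1 hZ.2.1 c1)
      (key hZ.1 hZ.2.2 c2) (key hZ.2.1 hZ.2.2 c3)
    have f1 : enc (del Z D) = de Z A ++ two X.1 X.2 ++ de Z B ++ two Y.1 Y.2 ++ de Z C ++
        two W.1 W.2 ++ de Z F := by
      rw [enc_del, hE]; simp only [de_append, de_two_keep x1 x2, de_two_keep y1 y2, de_two_keep w1 w2]
    have f2 : enc (del Z D') = de Z A ++ two X.2 X.1 ++ de Z B ++ two Y.2 Y.1 ++ de Z C ++
        two W.2 W.1 ++ de Z F := by
      rw [enc_del, hE']; simp only [de_append, de_two_keep x2 x1, de_two_keep y2 y1,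
        de_two_keep w2 w1]
    have hl : (del Z D).map Prod.snd = (del Z D').map Prod.snd := by
      rw [← rl_enc, ← rl_enc, f1, f2]; simp
    have et : ∀ p q, eren ev (two p q) = two (ren ev p) (ren ev q) := fun _ _ => rfl
    have ea : ∀ X Y, eren ev (X ++ Y) = eren ev X ++ eren ev Y := fun _ _ => List.map_append
    have hP' : List.Perm [(ren ev X.1, ren ev X.2), (ren ev Y.1, ren ev Y.2),
        (ren ev W.1, ren ev W.2)] [(ren ev t.1, ren ev t.2), (ren ev m.1, ren ev m.2),
        (ren ev b.1, ren ev b.2)] := hP.map (fun q : Pass × Pass => (ren ev q.1, ren ev q.2))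
    obtain ⟨T', k1, k2⟩ := three_lift (D := renamed ev (del Z D) ++ [(e, κ)])
      (D' := renamed ev (del Z D') ++ [(e, κ)]) (A := eren ev (de Z A)) (B := eren ev (de Z B))
      (C := eren ev (de Z C)) (E := eren ev (de Z F) ++ enc [(e, κ)]) hthree (triAt_ren ev_inj hT) hP'
      (by rw [enc_append, enc_renamed, f1]; simp only [ea, et, List.append_assoc])
      (by rw [enc_append, enc_renamed, f2]; simp only [ea, et, List.append_assoc]) h1
    refine ⟨κ, T' :: Ts, ?_, k1, ?_⟩
    · obtain ⟨C, hC, hh⟩ := h0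
      have : C.2 ∈ (del Z D).map Prod.snd := by rw [hl]; exact List.mem_map_of_mem hC
      obtain ⟨C', hC', h'⟩ := List.mem_map.1 this
      exact ⟨C', hC', by rw [h', hh]⟩
    · rw [List.map_cons, List.map_cons, k2, h2, colour_ev, colour_ev, colour_ev]
  | @inner D D' T hD A B C F X Y W t m b x y z hT hP hE hE' hZ hm ih =>
    obtain ⟨c1, c2, c3⟩ := triAt_crossing hT
    have key : ∀ {u v : ℕ} {q : Pass × Pass}, (Z (colour u) ∨ Z (colour v)) →
        (q.1.crossing = u ∧ q.2.crossing = v ∨ q.1.crossing = v ∧ q.2.crossing = u) →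
        Z (colour q.1.crossing) ∨ Z (colour q.2.crossing) := by
      intro u v q hu hq
      rcases hq with ⟨e1, e2⟩ | ⟨e1, e2⟩ <;> rw [e1, e2]
      · exact hu
      · exact hu.symm
    obtain ⟨x1, y1, w1⟩ := mem_three hP (P := fun q : Pass × Pass =>
      Z (colour q.1.crossing) ∨ Z (colour q.2.crossing)) (key (by tauto) c1)
      (key (by tauto) c2) (key (by tauto) c3)
    have e : del Z D = del Z D' := by
      refine enc_inj ?_
      rw [enc_del, enc_del, hE, hE']
      simp only [de_append, de_two_swap x1, de_two_swap y1, de_two_swap w1]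
    rw [e]
    exact ih

/-- the beginning -/
theorem invB_base {k : List Pass} (hk : WF k) (κ : ℕ) :
    InvB (renamed ev [(k, κ)] ++ [(bar (k.map (ren od)), κ)]) [] := by
  have e : renamed ev [(k, κ)] ++ [(bar (k.map (ren od)), κ)] =
      [(k.map (ren ev), κ), (bar (k.map (ren od)), κ)] := rfl
  have hmem : ∀ r ∈ passes [(k.map (ren ev), κ),
      (bar (k.map (ren od)), κ)], ∃ p ∈ k, r = ren ev p ∨ r = flp (ren od p) := by
    intro r hr
    simp only [passes_cons, passes_nil, List.append_nil, List.mem_append, mem_bar] at hr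
    rcases hr with hr | hr
    · obtain ⟨p, hp, rfl⟩ := List.mem_map.1 hr
      exact ⟨p, hp, Or.inl rfl⟩
    · obtain ⟨p, hp, h⟩ := List.mem_map.1 hr
      exact ⟨p, hp, Or.inr (by rw [h, flp_flp])⟩
  have hoo : ∀ p ∈ bar (k.map (ren od)), IsOd p.crossing := by
    intro p hp
    obtain ⟨q, hq, h⟩ := List.mem_map.1 (mem_bar.1 hp)
    have : p.crossing = od q.crossing := (congrArg Pass.crossing h).symm
    rw [this]
    exact isOd_od _
  have hw : WF (passes (renamed ev [(k, κ)] ++ [(bar (k.map (ren od)), κ)])) :=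
    wf_dbl' (by simpa using hk) (WF.ren hk fun p _ q _ h => od_inj h).bar hoo
  set M : ℕ → ℕ := fun n => if n.unpair.2 % 2 = 1 then ev (hf n) else od (hf n) with hM
  have Me : ∀ c, M (ev c) = od c := by
    intro c
    rw [hM]
    simp only
    rw [if_neg (not_isOd_ev c), hf_ev]
  have Mo : ∀ c, M (od c) = ev c := by
    intro c
    rw [hM]
    simp only
    rw [if_pos (isOd_od c), hf_od]
  have hne : ∀ a b, ev a ≠ od b := fun a b h => not_isOd_ev a (h ▸ isOd_od b)
  have eTC : TC [] = [] := rfl
  refine ⟨by rw [eTC, List.append_nil]; exact hw, by simp, M, ?_, ?_, ?_⟩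
  · rw [eTC, List.append_nil, e]
    intro r hr
    obtain ⟨p, hp, rfl | rfl⟩ := hmem r hr
    · refine ⟨flp (ren od p), ?_, ?_, ?_, ?_⟩
      · simp only [passes_cons, passes_nil, List.append_nil, List.mem_append, mem_bar, flp_flp]
        exact Or.inr (List.mem_map_of_mem hp)
      · exact (Me _).symm
      · exact Mo _
      · intro _; simp [flp, ren]
    · refine ⟨ren ev p, ?_, ?_, ?_, ?_⟩
      · simp only [passes_cons, passes_nil, List.append_nil, List.mem_append, mem_bar, flp_flp]
        exact Or.inl (List.mem_map_of_mem hp)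
      · exact (Mo _).symm
      · exact Me _
      · intro _; simp [flp, ren]
  · rw [eTC, List.append_nil, e]
    intro r hr
    obtain ⟨p, hp, rfl | rfl⟩ := hmem r hr
    · have e1 : (ren ev p).crossing = ev p.crossing := rfl
      rw [e1, Me, colour_od, colour_ev]
      exact ⟨rfl, fun _ h => hne _ _ h.symm⟩
    · have e1 : (flp (ren od p)).crossing = od p.crossing := rfl
      rw [e1, Mo, colour_od, colour_ev]
      exact ⟨rfl, fun _ h => hne _ _ h⟩
  · rw [eTC, List.append_nil, e]
    intro G _ o u hv b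
    simp only [vals, List.map_cons, List.map_nil, bv_cons, bv_nil]
    split_ifs with hb
    · have h1 : ∀ w : List Pass, (∀ p ∈ w, p ∈ k) →
          wval (fun c => (o c)⁻¹) (fun c => (u c)⁻¹) (w.map (ren od)) =
          wval o u (w.map (ren ev)) := by
        intro w hw
        induction w with
        | nil => rfl
        | cons p w ih =>
          rw [List.map_cons, List.map_cons, wval_cons, wval_cons, ih fun q hq => hw q (by simp [hq])]
          congr 1
          obtain ⟨-, h2⟩ := hv (ren ev p) (by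
            simp only [passes_cons, passes_nil, List.append_nil, List.mem_append]
            exact Or.inl (List.mem_map_of_mem (hw p (by simp))))
          have e1 : (ren ev p).crossing = ev p.crossing := rfl
          rw [e1, Me] at h2
          have h3 := h2 (hne _ _).symm
          clear h2
          obtain ⟨c, τ, s⟩ := p
          simp only at h3
          cases τ
          · simp [val, ren, h3.2]
          · simp [val, ren, h3.1]
      rw [wval_bar, h1 k fun _ h => h]
      exact cn_pair.2 ⟨1, by simp⟩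
    · exact PC.nil

end Pool.Agent.R800.AN
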