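import Pool.Agent.R800.AN.Flow

/-! Knots joined by concordances whose curves cross evenly have a common lower bound. -/

namespace Pool.Agent.R800.AN

set_option linter.unusedSimpArgs false

open Pool.Agent.Y468.SR
open Pool.Agent.Y874.TP hiding S_REID S_REN S_THREE S_OUT S_CUT S_JUNC CStep CReid CM InvM InvC Inv3
open Pool.Agent.Y874.TP2
open Pool.Agent.Y874.TP2.T3
open Pool.Agent.Y874.TP2.T4 (del del_eq)
open Pool.Agent.R800.TP

/-- from the condition on the annulus to the common lower bound -/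
theorem common_of_inv {k₁ k₂ : List Pass} (c1 : Classical [(k₁, 0)]) (c2 : Classical [(k₂, 0)])
    (hI : Y468.SR.Inv ([(k₁.map (ren ev), 0)] ++ [(bar (k₂.map (ren od)), 0)])) :
    ∃ j, Movie false false [(k₁, 0)] [(j, 0)] ∧ Movie false false [(k₂, 0)] [(j, 0)] := by
  have w2 : WF k₂ := by simpa [wf_iff] using wf_iff.1 c2.1
  have d1 := classical_ren ev_inj c1
  have d2 := classical_ren od_inj c2
  have we : WF (bar (k₂.map (ren od))) := (WF.ren w2 fun p _ q _ h => od_inj h).bar
  have hodd : ∀ p ∈ bar (k₂.map (ren od)), IsOd p.crossing := by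
    intro p hp
    obtain ⟨q, hq, h⟩ := List.mem_map.1 (mem_bar.1 hp)
    have : p.crossing = od q.crossing := (congrArg Pass.crossing h).symm
    rw [this]
    exact isOd_od _
  have hG : Good [(k₁.map (ren ev), 0)] (bar (k₂.map (ren od))) := by
    refine ⟨d1, by simp, ⟨_, List.mem_singleton.2 rfl, rfl⟩, ?_, hI⟩
    have := wf_dbl' (D := [(k₁, 0)]) (κ := 0) (wf_iff.1 c1.1) we hodd
    rw [passes_snoc] at this
    exact this
  obtain ⟨j, j1, j2, -⟩ := common _ _ _ le_rfl hG d2
  have s1 : Step false false [(k₁, 0)] [(k₁.map (ren ev), 0)] :=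
    Step.rename ev [(k₁, 0)] fun p _ q _ h => ev_inj h
  have s2 : Step false false [(k₂, 0)] [(k₂.map (ren od), 0)] :=
    Step.rename od [(k₂, 0)] fun p _ q _ h => od_inj h
  exact ⟨j, Movie.head c1 d1 s1 j1, Movie.head c2 d2 s2 j2⟩

theorem kap_ev (p : Pass) : kap (ren ev p) = ends p := by
  rw [ends_eq]
  simp only [kap, lc, ren, colour_ev]

theorem kap_od (p : Pass) : kap (ren od p) = ends p := by
  rw [ends_eq]
  simp only [kap, lc, ren, colour_od]

theorem kap_flp (p : Pass) : kap (flp p) = kap p := rfl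

theorem map_kap (w w' : List Pass) :
    ((w.map (ren ev) ++ bar (w'.map (ren od))).map kap).Perm ((w ++ w').map ends) := by
  rw [bar_eq, List.map_append, List.map_append]
  refine List.Perm.append ?_ ?_
  · rw [List.map_map]
    have : (kap ∘ ren ev) = ends := funext kap_ev
    rw [this]
  · rw [List.map_reverse, List.map_map, List.map_map]
    have : (kap ∘ flp) ∘ ren od = ends := by
      funext p
      simp only [Function.comp, kap_flp, kap_od]
    rw [this]
    exact List.reverse_perm _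

theorem mem_kap {w w' : List Pass} {p : Pass} (hp : p ∈ w.map (ren ev) ++ bar (w'.map (ren od))) :
    ∃ p' ∈ w ++ w', kap p = ends p' := by
  have h1 : kap p ∈ (w ++ w').map ends :=
    (map_kap w w').subset (List.mem_map_of_mem hp)
  obtain ⟨p', hp', h⟩ := List.mem_map.1 h1
  exact ⟨p', hp', h.symm⟩

theorem common_of_cmovie {Z : ℕ → Prop} {k₁ k₂ : List Pass} {T : List (ℕ × ℕ × ℕ)}
    (c2 : Classical [(k₂, 0)]) (hM : CMovie Z [(k₂, 0)] [(k₁, 0)] T)
    (hZ : ∀ p ∈ k₁ ++ k₂, ¬Z (colour p.crossing))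
    (hc : ∀ κ, ((k₁ ++ k₂).map ends).count κ ≤ 2)
    (he : ∀ p ∈ k₁ ++ k₂, ∀ q ∈ k₁ ++ k₂, ends p ≠ ends q →
      Even ((T.flatMap crs).count s(ends p, ends q))) :
    ∃ j, Movie false false [(k₁, 0)] [(j, 0)] ∧ Movie false false [(k₂, 0)] [(j, 0)] := by
  have c1 := cmovie_classical hM
  have w1 : WF k₁ := by simpa [wf_iff] using wf_iff.1 c1.1
  have w2 : WF k₂ := by simpa [wf_iff] using wf_iff.1 c2.1
  have we : WF (bar (k₂.map (ren od))) := (WF.ren w2 fun p _ q _ h => od_inj h).bar
  have hodd : ∀ p ∈ bar (k₂.map (ren od)), IsOd p.crossing := by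
    intro p hp
    obtain ⟨q, hq, h⟩ := List.mem_map.1 (mem_bar.1 hp)
    have : p.crossing = od q.crossing := (congrArg Pass.crossing h).symm
    rw [this]
    exact isOd_od _
  have d1 : del Z [(k₁, 0)] = [(k₁, 0)] := del_eq fun p hp => hZ p (by
    simp only [passes_cons, passes_nil, List.append_nil] at hp
    exact List.mem_append_left _ hp)
  have d2 : del Z [(k₂, 0)] = [(k₂, 0)] := del_eq fun p hp => hZ p (by
    simp only [passes_cons, passes_nil, List.append_nil] at hp
    exact List.mem_append_right _ hp)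
  obtain ⟨κ, Ts, h0, hI, hs⟩ := cmovie_inv RD.reid RN.ren TH.three hM we hodd
    ⟨0, by rw [d2]; exact ⟨(k₂, 0), by simp, rfl⟩, by rw [d2]; exact invB_base w2 0⟩
  rw [d1] at h0 hI
  obtain ⟨C, hC, h0⟩ := h0
  rw [List.mem_singleton] at hC
  subst hC
  simp only at h0
  subst h0
  have hI' : InvB (ann (k₁.map (ren ev)) (bar (k₂.map (ren od)))) Ts := hI
  obtain ⟨m, hm⟩ := hI'.inv
  have hW : WF (k₁.map (ren ev) ++ bar (k₂.map (ren od))) := by
    have := wf_dbl' (D := [(k₁, 0)]) (κ := 0) (wf_iff.1 c1.1) we hodd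
    rw [passes_snoc] at this
    simpa [passes_renamed] using this
  obtain ⟨hm₁, hN⟩ := nullR_mt hI' hm hW (fun κ => by rw [(map_kap k₁ k₂).count_eq]; exact hc κ)
    (fun p hp q hq hpq => by
      obtain ⟨p', hp', e1⟩ := mem_kap hp
      obtain ⟨q', hq', e2⟩ := mem_kap hq
      rw [e1, e2, tprs_all hs]
      exact he p' hp' q' hq' (by rw [← e1, ← e2]; exact hpq))
  exact common_of_inv c1 c2 (inv_of_nullR (by simp) ⟨_, List.mem_singleton.2 rfl, rfl⟩ hm₁ hN)

theorem common_of_evenConc {k k' : List Pass} (h : EvenConc k k') :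
    ∃ j, Movie false false [(k, 0)] [(j, 0)] ∧ Movie false false [(k', 0)] [(j, 0)] := by
  obtain ⟨hk, hk', f, g, Z, T, hf, hg, hZ, hM, hc, he⟩ := h
  have c1 := classical_ren hf hk
  have c2 := classical_ren hg hk'
  obtain ⟨j, j1, j2⟩ := common_of_cmovie c2 hM hZ hc he
  have s1 : Step false false [(k, 0)] [(k.map (ren f), 0)] :=
    Step.rename f [(k, 0)] fun p _ q _ h => hf h
  have s2 : Step false false [(k', 0)] [(k'.map (ren g), 0)] :=
    Step.rename g [(k', 0)] fun p _ q _ h => hg h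
  exact ⟨j, Movie.head hk c1 s1 j1, Movie.head hk' c2 s2 j2⟩

theorem movie_of_common {k k' : List Pass}
    (h : ∃ j, Movie false false [(k, 0)] [(j, 0)] ∧ Movie false false [(k', 0)] [(j, 0)]) :
    Movie false true [(k, 0)] [(k', 0)] ∧ Movie false true [(k', 0)] [(k, 0)] := by
  obtain ⟨j, j1, j2⟩ := h
  have r1 : Movie false true [(j, 0)] [(k, 0)] := movie_rev j1 (by simp) (by simp)
  have r2 : Movie false true [(j, 0)] [(k', 0)] := movie_rev j2 (by simp) (by simp)
  exact ⟨(movie_births j1).trans r2, (movie_births j2).trans r1⟩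

/-- chains of concordances -/
theorem movie_of_eqvGen {R : List Pass → List Pass → Prop}
    (hR : ∀ k k', R k k' → ∃ j, Movie false false [(k, 0)] [(j, 0)] ∧
      Movie false false [(k', 0)] [(j, 0)]) {k k' : List Pass} (h : Relation.EqvGen R k k') :
    Movie false true [(k, 0)] [(k', 0)] ∧ Movie false true [(k', 0)] [(k, 0)] := by
  induction h with
  | rel _ _ h => exact movie_of_common (hR _ _ h)
  | refl _ => exact ⟨.refl, .refl⟩
  | symm _ _ _ ih => exact ⟨ih.2, ih.1⟩
  | trans _ _ _ _ _ ih1 ih2 => exact ⟨ih1.1.trans ih2.1, ih2.2.trans ih1.2⟩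

end Pool.Agent.R800.AN
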